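import Pool.Agent.H483R3.Cyc.Stmts

set_option autoImplicit false

open MeasureTheory ProbabilityTheory Filter Topology Finset

namespace H483C
namespace M1

theorem Dq_nonneg {N : ℕ} (p q : Fin (N + 3) → ℝ) (y : Fin (N + 3) → ℤ) : 0 ≤ Dq p q y := by
  unfold Dq; positivity

theorem Dq_meas {N : ℕ} {Ω : Type} (m' : MeasurableSpace Ω) (p q : Fin (N + 3) → ℝ)
    (Z : Ω → Fin (N + 3) → ℤ) (hZ : ∀ v, Measurable[m'] (fun ω => Z ω v)) :
    Measurable[m'] (fun ω => Dq p q (Z ω)) := by
  have h : ∀ v, Measurable[m'] (fun ω => ((Z ω v : ℤ) : ℝ)) := fun v =>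
    (measurable_from_top (f := fun z : ℤ => (z : ℝ))).comp (hZ v)
  have hs : ∀ r : Fin (N + 3) → ℝ, Measurable[m'] (fun ω => ∑ v, r v * ((Z ω v : ℤ) : ℝ)) :=
    fun r => Finset.measurable_fun_sum _ (fun v _ => (h v).const_mul (r v))
  exact ((hs p).pow_const 2).add ((hs q).pow_const 2)

theorem Sn_meas {N : ℕ} {Ω : Type} (m' : MeasurableSpace Ω)
    (Z : Ω → Fin (N + 3) → ℤ) (hZ : ∀ v, Measurable[m'] (fun ω => Z ω v)) :
    Measurable[m'] (fun ω => Sn (Z ω)) := by
  have h : ∀ v, Measurable[m'] (fun ω => |((Z ω v : ℤ) : ℝ)|) := fun v =>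
    (measurable_from_top (f := fun z : ℤ => |(z : ℝ)|)).comp (hZ v)
  exact Finset.measurable_fun_sum _ (fun v _ => h v)

section
variable {N : ℕ} {θ : ℤ} {Ω : Type} {m : MeasurableSpace Ω} {μ : Measure Ω}
  {ℱ : Filtration ℕ m} {a : ℕ → Set Ω} {Y : ℕ → Ω → Fin (N + 3) → ℤ}
  {c' : ℕ → Ω → Fin (N + 3)}

/-- `G (n + 1)` is measurable at time `n` -/
theorem Gn_meas_succ (hL : IsLin θ μ ℱ a Y c') (lam : ℝ) (n : ℕ) :
    Measurable[ℱ n] (fun ω => Gn lam a Y (n + 1) ω) := by
  unfold Gn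
  refine Finset.measurable_fun_prod _ (fun i hi => ?_)
  have hin : i ≤ n := by have := Finset.mem_range.mp hi; omega
  have h1 : Measurable[ℱ i] (fun ω => 2 * lam / Sn (Y i ω)) :=
    measurable_const.div (Sn_meas (ℱ i) (Y i) (hL.ymeas i))
  have h2 : Measurable[ℱ i] ((a i).indicator (fun ω => 2 * lam / Sn (Y i ω))) :=
    h1.indicator (hL.ameas i)
  exact (measurable_const.add h2).mono (ℱ.mono hin) le_rfl

theorem Gn_meas (hL : IsLin θ μ ℱ a Y c') (lam : ℝ) (n : ℕ) :
    Measurable[ℱ n] (fun ω => Gn lam a Y n ω) := by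
  cases n with
  | zero =>
    have : (fun ω => Gn lam a Y 0 ω) = fun _ => (1 : ℝ) := by
      funext ω; simp [Gn]
    rw [this]; exact measurable_const
  | succ n => exact (Gn_meas_succ hL lam n).mono (ℱ.mono (Nat.le_succ n)) le_rfl

theorem Gn_le (hL : IsLin θ μ ℱ a Y c') (lam : ℝ) (hlam : 0 ≤ lam) (n : ℕ) (ω : Ω) :
    Gn lam a Y n ω ≤ (1 + 2 * lam) ^ n := by
  unfold Gn
  have : ∏ i ∈ range n, (1 + (a i).indicator (fun ω => 2 * lam / Sn (Y i ω)) ω) ≤
      ∏ _i ∈ range n, (1 + 2 * lam) := by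
    refine Finset.prod_le_prod (fun i _ => ?_) (fun i _ => ?_)
    · have hS := hL.pos i ω
      have : 0 ≤ (a i).indicator (fun ω => 2 * lam / Sn (Y i ω)) ω := by
        refine Set.indicator_nonneg (fun ω _ => ?_) ω
        have := hL.pos i ω
        have h0 : 0 < Sn (Y i ω) := by linarith
        positivity
      linarith
    · have hS := hL.pos i ω
      have : (a i).indicator (fun ω => 2 * lam / Sn (Y i ω)) ω ≤ 2 * lam := by
        by_cases h : ω ∈ a i
        · rw [Set.indicator_of_mem h]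
          exact div_le_self (by positivity) hS
        · rw [Set.indicator_of_notMem h]; positivity
      linarith
  simpa using this

theorem Gn_succ (lam : ℝ) (n : ℕ) (ω : Ω) : Gn lam a Y (n + 1) ω =
    Gn lam a Y n ω * (1 + (a n).indicator (fun ω => 2 * lam / Sn (Y n ω)) ω) := by
  unfold Gn; rw [Finset.prod_range_succ]

end

theorem t : H483C.TaskM1 := by
  intro hG hMom N θ hθ lam p q κ lam2 hS
  obtain ⟨ρ, C, c, hρ, hC, hc, -, hGG⟩ := hG θ hθ lam hS.h1 hS.h2
  obtain ⟨CM, hCM, hM⟩ := hMom N θ hθ lam p q κ lam2 hS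
  have hlam : 0 < lam := by have := hS.h1; linarith
  refine ⟨min 1 (lam ^ 2 * c), lt_min one_pos (by positivity), ?_⟩
  intro Ω m μ hprob ℱ a Y c' hL t B hB
  obtain ⟨hS2, hG1, hGm, -, hGsum⟩ := hGG N Ω m μ ℱ a Y c' hL
  have hMM := hM Ω m μ hprob ℱ a Y c' hL
  -- abbreviations
  set D : ℕ → Ω → ℝ := fun n ω => Dq p q (Y n ω) with hD
  set G : ℕ → Ω → ℝ := fun n ω => Gn lam a Y n ω with hGdef
  set S : ℕ → Ω → ℝ := fun n ω => Sn (Y n ω) with hSdef
  set H : Ω → ℝ := fun ω => Hn lam p q a Y t ω with hHdef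
  have hD0 : ∀ n ω, 0 ≤ D n ω := fun n ω => Dq_nonneg p q (Y n ω)
  have hS1 : ∀ n ω, 1 ≤ S n ω := fun n ω => hL.pos n ω
  have hHe : ∀ ω, H ω = (D t ω + S t ω) / G t ω := fun ω => rfl
  have hHpos : ∀ ω, 0 < H ω := by
    intro ω; rw [hHe]
    have h1 := hD0 t ω; have h2 := hS1 t ω; have h3 := hG1 t ω
    have h3' : 1 ≤ G t ω := h3
    positivity
  have hDmeas : ∀ n, Measurable[ℱ n] (D n) := fun n => Dq_meas (ℱ n) p q (Y n) (hL.ymeas n)
  have hSmeas : ∀ n, Measurable[ℱ n] (S n) := fun n => Sn_meas (ℱ n) (Y n) (hL.ymeas n)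
  have hGmeas : ∀ n, Measurable[ℱ n] (G n) := fun n => Gn_meas hL lam n
  have hGmeas' : ∀ n, Measurable[ℱ n] (G (n + 1)) := fun n => Gn_meas_succ hL lam n
  have hHmeas : Measurable[ℱ t] H := ((hDmeas t).add (hSmeas t)).div (hGmeas t)
  -- bound for `1/H`
  have hHinv : ∀ ω, 1 / H ω ≤ (1 + 2 * lam) ^ t := by
    intro ω
    have h3 : 1 ≤ G t ω := hG1 t ω
    have h4 : G t ω ≤ (1 + 2 * lam) ^ t := Gn_le hL lam hlam.le t ω
    have h1 := hD0 t ω; have h2 := hS1 t ω
    rw [hHe, one_div_div]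
    refine le_trans (div_le_self (by linarith) (by linarith)) h4
  have hW : ∀ n ω, ‖1 / G n ω / H ω‖ ≤ (1 + 2 * lam) ^ t := by
    intro n ω
    have h3 : 1 ≤ G n ω := hG1 n ω
    have hHp := hHpos ω
    rw [Real.norm_of_nonneg (by positivity)]
    have : 1 / G n ω / H ω = (1 / G n ω) * (1 / H ω) := by ring
    rw [this]
    calc (1 / G n ω) * (1 / H ω) ≤ 1 * (1 / H ω) := by
          refine mul_le_mul_of_nonneg_right ?_ (by positivity)
          rw [div_le_one (by linarith)]; exact h3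
      _ ≤ _ := by rw [one_mul]; exact hHinv ω
  have hWmeas : ∀ n, t ≤ n → Measurable[ℱ n] (fun ω => 1 / G (n + 1) ω / H ω) := by
    intro n hn
    exact (measurable_const.div (hGmeas' n)).div (hHmeas.mono (ℱ.mono hn) le_rfl)
  have hWmeas0 : ∀ n, Measurable (fun ω => 1 / G n ω / H ω) := by
    intro n
    exact (measurable_const.div ((hGmeas n).mono (ℱ.le n) le_rfl)).div
      (hHmeas.mono (ℱ.le t) le_rfl)
  have hDint : ∀ n, Integrable (D n) μ := fun n => (hMM n).1
  -- integrability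
  have hI1 : ∀ n k, Integrable (fun ω => 1 / G n ω / H ω * D k ω) μ := by
    intro n k
    exact (hDint k).bdd_mul (hWmeas0 n).aestronglyMeasurable
      (Eventually.of_forall (hW n))
  have hI2 : ∀ n, Integrable (fun ω => D n ω / G n ω / H ω) μ := by
    intro n
    refine (hI1 n n).congr (Eventually.of_forall fun ω => ?_)
    simp only []
    ring
  have hI3 : ∀ i, Integrable ((a i).indicator (fun ω => 1 / G (i + 1) ω / H ω)) μ := by
    intro i
    have : Integrable (fun ω => 1 / G (i + 1) ω / H ω) μ := by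
      refine Integrable.of_bound (hWmeas0 (i + 1)).aestronglyMeasurable ((1 + 2 * lam) ^ t)
        (Eventually.of_forall (hW (i + 1)))
    exact this.indicator (ℱ.le i _ (hL.ameas i))
  have hBm : MeasurableSet B := ℱ.le t _ hB
  -- one step
  have hstep : ∀ n, t ≤ n → ∫ ω in B, D (n + 1) ω / G (n + 1) ω / H ω ∂μ =
      ∫ ω in B, D n ω / G n ω / H ω ∂μ +
        ∫ ω in B, lam ^ 2 * (a n).indicator (fun ω => 1 / G (n + 1) ω / H ω) ω ∂μ := by
    intro n hn
    have hpull : μ[fun ω => 1 / G (n + 1) ω / H ω * D (n + 1) ω | ℱ n] =ᵐ[μ]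
        fun ω => 1 / G (n + 1) ω / H ω * (μ[D (n + 1) | ℱ n]) ω :=
      condExp_mul_of_stronglyMeasurable_left (hWmeas n hn).stronglyMeasurable
        (hI1 (n + 1) (n + 1)) (hDint (n + 1))
    have hcond : μ[D (n + 1) | ℱ n] =ᵐ[μ] fun ω => D n ω +
      (a n).indicator (fun ω => 2 * lam * D n ω / S n ω + lam ^ 2) ω := (hMM n).2.2.2.1
    have hBn : MeasurableSet[ℱ n] B := ℱ.mono hn _ hB
    have h1 : ∫ ω in B, 1 / G (n + 1) ω / H ω * D (n + 1) ω ∂μ =
        ∫ ω in B, (μ[fun ω => 1 / G (n + 1) ω / H ω * D (n + 1) ω | ℱ n]) ω ∂μ :=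
      (setIntegral_condExp (ℱ.le n) (hI1 (n + 1) (n + 1)) hBn).symm
    have h2 : ∫ ω in B, (μ[fun ω => 1 / G (n + 1) ω / H ω * D (n + 1) ω | ℱ n]) ω ∂μ =
        ∫ ω in B, (D n ω / G n ω / H ω +
          lam ^ 2 * (a n).indicator (fun ω => 1 / G (n + 1) ω / H ω) ω) ∂μ := by
      refine integral_congr_ae (ae_restrict_of_ae ?_)
      filter_upwards [hpull, hcond] with ω h1 h2
      rw [h1, h2]
      have hGs : G (n + 1) ω = G n ω * (1 + (a n).indicator (fun ω => 2 * lam / S n ω) ω) :=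
        Gn_succ lam n ω
      have h3 : 1 ≤ G n ω := hG1 n ω
      have hHp := hHpos ω
      have hSp := hS1 n ω
      by_cases hω : ω ∈ a n
      · rw [Set.indicator_of_mem hω, Set.indicator_of_mem hω]
        rw [Set.indicator_of_mem hω] at hGs
        rw [hGs]
        have : 0 < S n ω := by linarith
        have : 0 < G n ω := by linarith
        have h5 : 0 < 1 + 2 * lam / S n ω := by positivity
        have h6 : D n ω + (2 * lam * D n ω / S n ω + lam ^ 2) =
            D n ω * (1 + 2 * lam / S n ω) + lam ^ 2 := by ring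
        rw [h6]
        field_simp
      · rw [Set.indicator_of_notMem hω, Set.indicator_of_notMem hω]
        rw [Set.indicator_of_notMem hω] at hGs
        rw [hGs]
        ring
    have h3 : ∫ ω in B, D (n + 1) ω / G (n + 1) ω / H ω ∂μ =
        ∫ ω in B, 1 / G (n + 1) ω / H ω * D (n + 1) ω ∂μ := by
      refine integral_congr_ae (Eventually.of_forall fun ω => ?_)
      simp only []
      ring
    rw [h3, h1, h2, integral_add (hI2 n).integrableOn ((hI3 n).const_mul _).integrableOn]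
  -- sum of the steps
  have hsum : ∀ n, t ≤ n → ∫ ω in B, D n ω / G n ω / H ω ∂μ =
      ∫ ω in B, (D t ω / G t ω / H ω +
        ∑ i ∈ Ico t n, lam ^ 2 * (a i).indicator (fun ω => 1 / G (i + 1) ω / H ω) ω) ∂μ := by
    intro n hn
    induction n, hn using Nat.le_induction with
    | base => simp
    | succ n hn ih =>
      rw [hstep n hn, ih, ← integral_add]
      · refine integral_congr_ae (Eventually.of_forall fun ω => ?_)
        simp only []
        rw [Finset.sum_Ico_succ_top hn, add_assoc]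
      · refine ((hI2 t).add ?_).integrableOn
        exact integrable_finsetSum _ (fun i _ => (hI3 i).const_mul _)
      · exact ((hI3 n).const_mul _).integrableOn
  -- the bound for `S t`
  obtain ⟨K, hK⟩ := hL.bdd
  have hSt : ∀ n ω, S n ω ≤ K + 2 * n := by
    intro n ω
    induction n with
    | zero => simpa using hK ω
    | succ n ih =>
      have := (abs_le.mp (hS2 n ω)).2
      push_cast
      have h7 : S (n + 1) ω - S n ω ≤ 2 := this
      linarith
  rw [eventually_atTop]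
  refine ⟨t + ⌊K + 2 * t⌋₊ + 1, fun n hn => ?_⟩
  have htn : t ≤ n := by omega
  rw [hsum n htn]
  -- the event
  set F : Set Ω := {ω | ∀ j, ω ∈ a j} with hF
  have hFm : MeasurableSet F := by
    have : F = ⋂ j, a j := by ext ω; simp [hF]
    rw [this]
    exact MeasurableSet.iInter (fun j => ℱ.le j _ (hL.ameas j))
  have hFc : {ω | ¬ ∀ j, ω ∈ a j} = Fᶜ := rfl
  rw [hFc]
  have hmeas : μ.real B - μ.real (B ∩ Fᶜ) = μ.real (B ∩ F) := by
    have := measureReal_inter_add_sdiff (μ := μ) (s := B) hFm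
    rw [Set.sdiff_eq] at this
    linarith
  rw [hmeas]
  have hconst : min 1 (lam ^ 2 * c) * μ.real (B ∩ F) =
      ∫ ω in B, F.indicator (fun _ => min 1 (lam ^ 2 * c)) ω ∂μ := by
    rw [setIntegral_indicator hFm, setIntegral_const, smul_eq_mul, mul_comm]
  rw [hconst]
  refine setIntegral_mono ?_ ?_ ?_
  · exact ((integrable_const _).indicator hFm).integrableOn
  · refine ((hI2 t).add ?_).integrableOn
    exact integrable_finsetSum _ (fun i _ => (hI3 i).const_mul _)
  · intro ω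
    have h3 : 1 ≤ G t ω := hG1 t ω
    have hHp := hHpos ω
    have hSp := hS1 t ω
    have hDp := hD0 t ω
    have hterm : ∀ i, 0 ≤ lam ^ 2 * (a i).indicator (fun ω => 1 / G (i + 1) ω / H ω) ω := by
      intro i
      refine mul_nonneg (by positivity) (Set.indicator_nonneg (fun ω _ => ?_) ω)
      have h8 : 1 ≤ G (i + 1) ω := hG1 (i + 1) ω
      have := hHpos ω
      positivity
    by_cases hω : ω ∈ F
    · simp only [Set.indicator_of_mem hω]
      have hfl : t + ⌊Sn (Y t ω)⌋₊ + 1 ≤ n := by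
        have : ⌊Sn (Y t ω)⌋₊ ≤ ⌊K + 2 * t⌋₊ := Nat.floor_le_floor (hSt t ω)
        omega
      have hge := hGsum t n ω hω hfl
      have hge' : c * S t ω / G t ω ≤
        ∑ i ∈ Ico t n, (a i).indicator (fun ω => 1 / G (i + 1) ω) ω := hge
      have hsumeq : ∑ i ∈ Ico t n, lam ^ 2 *
          (a i).indicator (fun ω => 1 / G (i + 1) ω / H ω) ω =
          lam ^ 2 * (∑ i ∈ Ico t n, (a i).indicator (fun ω => 1 / G (i + 1) ω) ω) / H ω := by
        rw [Finset.mul_sum, Finset.sum_div]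
        refine Finset.sum_congr rfl (fun i _ => ?_)
        rw [Set.indicator_of_mem (hω i), Set.indicator_of_mem (hω i)]
        ring
      rw [hsumeq]
      have h9 : lam ^ 2 * (c * S t ω / G t ω) / H ω ≤
          lam ^ 2 * (∑ i ∈ Ico t n, (a i).indicator (fun ω => 1 / G (i + 1) ω) ω) / H ω := by
        gcongr
      refine le_trans ?_ (add_le_add le_rfl h9)
      have h10 : D t ω / G t ω / H ω + lam ^ 2 * (c * S t ω / G t ω) / H ω =
          (D t ω + lam ^ 2 * c * S t ω) / (D t ω + S t ω) := by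
        rw [hHe]
        have : 0 < G t ω := by linarith
        have : 0 < D t ω + S t ω := by linarith
        field_simp
      rw [h10, le_div_iff₀ (by linarith)]
      have h11 : min 1 (lam ^ 2 * c) ≤ 1 := min_le_left _ _
      have h12 : min 1 (lam ^ 2 * c) ≤ lam ^ 2 * c := min_le_right _ _
      nlinarith [mul_le_mul_of_nonneg_right h11 hDp,
        mul_le_mul_of_nonneg_right h12 (by linarith : 0 ≤ S t ω)]
    · simp only [Set.indicator_of_notMem hω]
      have h13 : 0 ≤ D t ω / G t ω / H ω := by positivity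
      have h14 : 0 ≤ ∑ i ∈ Ico t n, lam ^ 2 *
          (a i).indicator (fun ω => 1 / G (i + 1) ω / H ω) ω :=
        Finset.sum_nonneg (fun i _ => hterm i)
      linarith

end M1
end H483C
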